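import Mathlib

set_option autoImplicit false

open Finset Metric
open scoped ENNReal

namespace Pool.Agent.H797R2.Wiener

/-- The `n`-th Taylor coefficient at `0`. -/
noncomputable def taylor (f : ℂ → ℂ) (n : ℕ) : ℂ := iteratedDeriv n f 0 / (n.factorial : ℂ)

/-- The Wiener norm: the sum of the absolute values of the Taylor coefficients at `0`. -/
noncomputable def wnorm (f : ℂ → ℂ) : ℝ≥0∞ := ∑' n : ℕ, ‖taylor f n‖ₑ

/-- The class of functions analytic in the unit disc with Wiener norm one and modulus at least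
`δ` in the disc. -/
def Fam (δ : ℝ) : Set (ℂ → ℂ) :=
  {f | DifferentiableOn ℂ f (ball 0 1) ∧ wnorm f = 1 ∧ ∀ z ∈ ball (0 : ℂ) 1, δ ≤ ‖f z‖}

/-- The supremum of the Wiener norms of the reciprocals. -/
noncomputable def CC (δ : ℝ) : ℝ≥0∞ := ⨆ f ∈ Fam δ, wnorm (fun z => (f z)⁻¹)

theorem taylor_hasSum {f : ℂ → ℂ} (hf : DifferentiableOn ℂ f (ball 0 1)) {z : ℂ}
    (hz : z ∈ ball (0 : ℂ) 1) : HasSum (fun n => taylor f n * z ^ n) (f z) := by
  have h := Complex.hasSum_taylorSeries_on_ball hf hz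
  have hfun : (fun n => taylor f n * z ^ n)
      = fun n : ℕ => ((n.factorial : ℂ))⁻¹ • (z - 0) ^ n • iteratedDeriv n f 0 := by
    funext n
    unfold taylor
    simp only [smul_eq_mul, sub_zero]
    ring
  rw [hfun]
  exact h

theorem contDiffAt_zero {f : ℂ → ℂ} (hf : DifferentiableOn ℂ f (ball 0 1)) (n : ℕ) :
    ContDiffAt ℂ n f 0 :=
  ((hf.analyticAt (ball_mem_nhds 0 one_pos)).contDiffAt)

theorem taylor_mul {f g : ℂ → ℂ} (hf : DifferentiableOn ℂ f (ball 0 1))
    (hg : DifferentiableOn ℂ g (ball 0 1)) (n : ℕ) :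
    taylor (fun z => f z * g z) n = ∑ i ∈ range (n + 1), taylor f i * taylor g (n - i) := by
  unfold taylor
  rw [iteratedDeriv_fun_mul (contDiffAt_zero hf n) (contDiffAt_zero hg n), Finset.sum_div]
  apply Finset.sum_congr rfl
  intro i hi
  have hi' : i ≤ n := by rw [Finset.mem_range] at hi; omega
  have h1 : (n.factorial : ℂ) = (n.choose i : ℂ) * i.factorial * (n - i).factorial := by
    rw [← Nat.choose_mul_factorial_mul_factorial hi']; push_cast; ring
  have h2 : (n.factorial : ℂ) ≠ 0 := by exact_mod_cast n.factorial_ne_zero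
  have h3 : (i.factorial : ℂ) ≠ 0 := by exact_mod_cast i.factorial_ne_zero
  have h4 : ((n - i).factorial : ℂ) ≠ 0 := by exact_mod_cast (n - i).factorial_ne_zero
  have h5 : (n.choose i : ℂ) ≠ 0 := by
    exact_mod_cast (Nat.choose_pos hi').ne'
  rw [h1]
  field_simp

theorem taylor_congr {f g : ℂ → ℂ} (h : ∀ z ∈ ball (0 : ℂ) 1, f z = g z) (n : ℕ) :
    taylor f n = taylor g n := by
  unfold taylor
  congr 1
  apply Filter.EventuallyEq.iteratedDeriv_eq
  filter_upwards [ball_mem_nhds (0 : ℂ) one_pos] with z hz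
  exact h z hz

theorem taylor_const (c : ℂ) (n : ℕ) : taylor (fun _ => c) n = if n = 0 then c else 0 := by
  unfold taylor
  rcases Nat.eq_zero_or_pos n with h | h
  · subst h; simp
  · rw [iteratedDeriv_const, if_neg h.ne']; simp

theorem taylor_zero (f : ℂ → ℂ) : taylor f 0 = f 0 := by
  simp [taylor]

/-- Convolution identity for reciprocals. -/
theorem conv {f : ℂ → ℂ} (hf : DifferentiableOn ℂ f (ball 0 1))
    (h0 : ∀ z ∈ ball (0 : ℂ) 1, f z ≠ 0) (n : ℕ) :
    ∑ i ∈ range (n + 1), taylor f i * taylor (fun z => (f z)⁻¹) (n - i)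
      = if n = 0 then 1 else 0 := by
  have hg : DifferentiableOn ℂ (fun z => (f z)⁻¹) (ball 0 1) := hf.inv h0
  rw [← taylor_mul hf hg n, ← taylor_const 1 n]
  apply taylor_congr
  intro z hz
  exact mul_inv_cancel₀ (h0 z hz)

/-- Upper bound. -/
theorem upper {δ : ℝ} (hδ : 1 / 2 < δ) {f : ℂ → ℂ} (hf : f ∈ Fam δ) :
    wnorm (fun z => (f z)⁻¹) ≤ ENNReal.ofReal (1 / (2 * δ - 1)) := by
  obtain ⟨hd, hw, hl⟩ := hf
  have h0 : ∀ z ∈ ball (0 : ℂ) 1, f z ≠ 0 := by
    intro z hz hz0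
    have := hl z hz
    rw [hz0, norm_zero] at this
    linarith
  set a := taylor f with ha
  set b := taylor (fun z => (f z)⁻¹) with hb
  have hconv := conv hd h0
  have ha0 : δ ≤ ‖a 0‖ := by
    rw [ha, taylor_zero]
    exact hl 0 (mem_ball_self one_pos)
  -- summability
  have hsum : ∑' n, ‖a n‖ₑ = 1 := hw
  have hbd : ∀ N, ∑ n ∈ range N, ‖a n‖ ≤ 1 := by
    intro N
    have h1 : ∑ n ∈ range N, ‖a n‖ₑ ≤ 1 := by
      rw [← hsum]; exact ENNReal.sum_le_tsum _
    have h2 : ∑ n ∈ range N, ‖a n‖ₑ = ENNReal.ofReal (∑ n ∈ range N, ‖a n‖) := by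
      rw [ENNReal.ofReal_sum_of_nonneg (fun _ _ => norm_nonneg _)]
      exact Finset.sum_congr rfl fun n _ => (ofReal_norm _).symm
    rw [h2, ← ENNReal.ofReal_one, ENNReal.ofReal_le_ofReal_iff zero_le_one] at h1
    exact h1
  have ha0' : ‖a 0‖ ≤ 1 := by simpa using hbd 1
  -- recursion
  have hrec : ∀ n, ‖a 0‖ * ‖b n‖ ≤ (if n = 0 then 1 else 0) +
      ∑ i ∈ range n, ‖a (i + 1)‖ * ‖b (n - (i + 1))‖ := by
    intro n
    have h1 := hconv n
    rw [Finset.sum_range_succ'] at h1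
    have h2 : a 0 * b n = (if n = 0 then 1 else 0) - ∑ i ∈ range n, a (i + 1) * b (n - (i + 1)) := by
      rw [eq_sub_iff_add_eq, add_comm, ← h1, ha, hb]; simp
    rw [← norm_mul, h2]
    refine (norm_sub_le _ _).trans ?_
    apply add_le_add
    · split_ifs <;> simp
    · refine (norm_sum_le _ _).trans ?_
      exact Finset.sum_le_sum fun i _ => (norm_mul _ _).le
  have hpart : ∀ N, (2 * δ - 1) * ∑ n ∈ range N, ‖b n‖ ≤ 1 := by
    intro N
    have h1 : ‖a 0‖ * ∑ n ∈ range N, ‖b n‖ ≤ 1 + ∑ n ∈ range N,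
        ∑ i ∈ range n, ‖a (i + 1)‖ * ‖b (n - (i + 1))‖ := by
      rw [Finset.mul_sum]
      refine (Finset.sum_le_sum fun n _ => hrec n).trans ?_
      rw [Finset.sum_add_distrib]
      gcongr
      rcases Nat.eq_zero_or_pos N with h | h
      · subst h; simp
      · rw [Finset.sum_ite_eq' (range N) 0 (fun _ => (1:ℝ)), if_pos (Finset.mem_range.2 h)]
    have h2 : ∑ n ∈ range N, ∑ i ∈ range n, ‖a (i + 1)‖ * ‖b (n - (i + 1))‖
        ≤ (∑ i ∈ range N, ‖a (i + 1)‖) * ∑ n ∈ range N, ‖b n‖ := by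
      have e1 : ∀ n ∈ range N, ∑ i ∈ range n, ‖a (i + 1)‖ * ‖b (n - (i + 1))‖
          = ∑ i ∈ range N, if i < n then ‖a (i + 1)‖ * ‖b (n - (i + 1))‖ else 0 := by
        intro n hn
        rw [Finset.mem_range] at hn
        rw [← Finset.sum_filter]
        apply Finset.sum_congr
        · ext i; simp only [Finset.mem_range, Finset.mem_filter]; omega
        · intro i _; rfl
      rw [Finset.sum_congr rfl e1, Finset.sum_comm, Finset.sum_mul]
      apply Finset.sum_le_sum
      intro i _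
      rw [← Finset.sum_filter, ← Finset.mul_sum]
      gcongr
      have e2 : ∑ n ∈ (range N).filter (fun n => i < n), ‖b (n - (i + 1))‖
          = ∑ m ∈ ((range N).filter (fun n => i < n)).image (fun n => n - (i + 1)), ‖b m‖ := by
        rw [Finset.sum_image]
        intro x hx y hy hxy
        simp only [Finset.coe_filter, Set.mem_ofPred_eq, Finset.mem_range] at hx hy
        simp only at hxy
        omega
      rw [e2]
      apply Finset.sum_le_sum_of_subset_of_nonneg
      · intro m hm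
        simp only [Finset.mem_image, Finset.mem_filter, Finset.mem_range] at hm ⊢
        obtain ⟨n, hn, rfl⟩ := hm
        omega
      · intro _ _ _; exact norm_nonneg _
    have h3 : ∑ i ∈ range N, ‖a (i + 1)‖ ≤ 1 - ‖a 0‖ := by
      have := hbd (N + 1)
      rw [Finset.sum_range_succ'] at this
      linarith
    have hB : 0 ≤ ∑ n ∈ range N, ‖b n‖ := Finset.sum_nonneg fun _ _ => norm_nonneg _
    have h4 : ‖a 0‖ * ∑ n ∈ range N, ‖b n‖ ≤ 1 + (1 - ‖a 0‖) * ∑ n ∈ range N, ‖b n‖ := by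
      calc _ ≤ _ := h1
        _ ≤ _ := by
          gcongr
          exact h2.trans (by gcongr)
    nlinarith
  have hpos : 0 < 2 * δ - 1 := by linarith
  unfold wnorm
  rw [ENNReal.tsum_eq_iSup_nat]
  apply iSup_le
  intro N
  have h2 : ∑ n ∈ range N, ‖b n‖ₑ = ENNReal.ofReal (∑ n ∈ range N, ‖b n‖) := by
    rw [ENNReal.ofReal_sum_of_nonneg (fun _ _ => norm_nonneg _)]
    exact Finset.sum_congr rfl fun n _ => (ofReal_norm _).symm
  change ∑ n ∈ range N, ‖b n‖ₑ ≤ _
  rw [h2]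
  apply ENNReal.ofReal_le_ofReal
  rw [le_div_iff₀ hpos, mul_comm]
  exact hpart N

end Pool.Agent.H797R2.Wiener
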