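import Mathlib

set_option autoImplicit false

open Finset Polynomial

namespace Pool.Agent.H797R2.Wiener

/-- The `ℓ¹` norm of the coefficients of a polynomial. -/
noncomputable def pn (p : ℂ[X]) : ℝ := ∑ e ∈ range (p.natDegree + 1), ‖p.coeff e‖

theorem pn_eq (p : ℂ[X]) (N : ℕ) (h : p.natDegree < N) : pn p = ∑ e ∈ range N, ‖p.coeff e‖ := by
  unfold pn
  apply Finset.sum_subset
  · intro e he; rw [Finset.mem_range] at *; omega
  · intro e _ he
    rw [Finset.mem_range, not_lt] at he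
    rw [Polynomial.coeff_eq_zero_of_natDegree_lt (by omega), norm_zero]

/-- The Rudin-Shapiro pair. -/
noncomputable def rs : ℕ → ℂ[X] × ℂ[X]
  | 0 => (1, 1)
  | k + 1 => ((rs k).1 + X ^ (2 ^ k) * (rs k).2, (rs k).1 - X ^ (2 ^ k) * (rs k).2)

theorem rs_coeff (k : ℕ) : ∀ e : ℕ,
    ((e < 2 ^ k → ‖(rs k).1.coeff e‖ = 1 ∧ ‖(rs k).2.coeff e‖ = 1) ∧
      (2 ^ k ≤ e → (rs k).1.coeff e = 0 ∧ (rs k).2.coeff e = 0)) := by
  induction k with
  | zero =>
    intro e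
    constructor
    · intro he
      have : e = 0 := by simpa using he
      subst this
      simp [rs]
    · intro he
      have : e ≠ 0 := by
        have : 1 ≤ e := by simpa using he
        omega
      simp [rs, Polynomial.coeff_one, this]
  | succ k ih =>
    intro e
    have hX : ∀ q : ℂ[X], (X ^ (2 ^ k) * q).coeff e = if 2 ^ k ≤ e then q.coeff (e - 2 ^ k) else 0 :=
      fun q => Polynomial.coeff_X_pow_mul' q (2 ^ k) e
    simp only [rs, Polynomial.coeff_add, Polynomial.coeff_sub, hX]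
    have h2 : 2 ^ (k + 1) = 2 ^ k + 2 ^ k := by ring
    constructor
    · intro he
      by_cases h : 2 ^ k ≤ e
      · rw [if_pos h, ((ih e).2 h).1, zero_add, zero_sub, norm_neg]
        exact ⟨((ih (e - 2 ^ k)).1 (by omega)).2, ((ih (e - 2 ^ k)).1 (by omega)).2⟩
      · rw [if_neg h, add_zero, sub_zero]
        exact ⟨((ih e).1 (by omega)).1, ((ih e).1 (by omega)).1⟩
    · intro he
      have h : 2 ^ k ≤ e := by omega
      rw [if_pos h, ((ih e).2 h).1, ((ih (e - 2 ^ k)).2 (by omega)).2]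
      simp

theorem rs_eval (k : ℕ) (z : ℂ) (hz : ‖z‖ ≤ 1) :
    ‖(rs k).1.eval z‖ ^ 2 + ‖(rs k).2.eval z‖ ^ 2 ≤ 2 ^ (k + 1) := by
  induction k with
  | zero => simp [rs]; norm_num
  | succ k ih =>
    simp only [rs, Polynomial.eval_add, Polynomial.eval_sub, Polynomial.eval_mul,
      Polynomial.eval_pow, Polynomial.eval_X]
    have h := parallelogram_law_with_norm ℝ ((rs k).1.eval z) (z ^ 2 ^ k * (rs k).2.eval z)
    have h1 : ‖z ^ 2 ^ k * (rs k).2.eval z‖ ≤ ‖(rs k).2.eval z‖ := by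
      rw [norm_mul, norm_pow]
      calc _ ≤ 1 * ‖(rs k).2.eval z‖ := by
            gcongr
            exact pow_le_one₀ (norm_nonneg _) hz
        _ = _ := one_mul _
    have h2 : ‖z ^ 2 ^ k * (rs k).2.eval z‖ ^ 2 ≤ ‖(rs k).2.eval z‖ ^ 2 := by gcongr
    have h3 : (2 : ℝ) ^ (k + 1 + 1) = 2 * 2 ^ (k + 1) := by ring
    rw [h3]
    nlinarith

/-- Flat polynomials: Wiener norm one, no constant term, and arbitrarily small sup norm. -/
theorem exists_flat (η : ℝ) (hη : 0 < η) : ∃ p : ℂ[X], p.coeff 0 = 0 ∧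
    ∑ e ∈ range (p.natDegree + 1), ‖p.coeff e‖ = 1 ∧ ∀ z : ℂ, ‖z‖ ≤ 1 → ‖p.eval z‖ ≤ η := by
  obtain ⟨k, hk⟩ := pow_unbounded_of_one_lt (2 / η ^ 2) (one_lt_two (α := ℝ))
  have h2k : (0 : ℝ) < 2 ^ k := by positivity
  refine ⟨X * (C ((2 : ℂ) ^ k)⁻¹ * (rs k).1), by simp, ?_, ?_⟩
  · have hc : ∀ e, ‖(X * (C ((2 : ℂ) ^ k)⁻¹ * (rs k).1)).coeff (e + 1)‖
        = if e < 2 ^ k then ((2 : ℝ) ^ k)⁻¹ else 0 := by
      intro e
      rw [Polynomial.coeff_X_mul, Polynomial.coeff_C_mul, norm_mul]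
      by_cases he : e < 2 ^ k
      · rw [if_pos he, ((rs_coeff k e).1 he).1]; simp
      · rw [if_neg he, ((rs_coeff k e).2 (not_lt.1 he)).1]; simp
    have hdeg : (X * (C ((2 : ℂ) ^ k)⁻¹ * (rs k).1)).natDegree < 2 ^ k + 1 := by
      rw [Nat.lt_succ_iff, Polynomial.natDegree_le_iff_coeff_eq_zero]
      intro N hN
      have h2n : 0 < 2 ^ k := Nat.two_pow_pos k
      obtain ⟨e, rfl⟩ : ∃ e, N = e + 1 := ⟨N - 1, by omega⟩
      have := hc e
      rw [if_neg (by omega)] at this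
      exact norm_eq_zero.1 this
    have h1 := pn_eq _ _ hdeg
    unfold pn at h1
    rw [h1, Finset.sum_range_succ']
    simp only [hc]
    rw [← Finset.sum_filter]
    have h3 : (range (2 ^ k)).filter (fun e => e < 2 ^ k) = range (2 ^ k) := by
      ext e; simp
    rw [h3]
    simp
  · intro z hz
    rw [Polynomial.eval_mul, Polynomial.eval_mul, Polynomial.eval_X, Polynomial.eval_C]
    have h1 := rs_eval k z hz
    have h2 : ‖(rs k).1.eval z‖ ^ 2 ≤ 2 ^ (k + 1) := by nlinarith [sq_nonneg ‖(rs k).2.eval z‖]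
    have h3 : ‖z * (((2 : ℂ) ^ k)⁻¹ * (rs k).1.eval z)‖ ≤ ((2 : ℝ) ^ k)⁻¹ * ‖(rs k).1.eval z‖ := by
      rw [norm_mul, norm_mul, norm_inv, norm_pow]
      have : ‖(2 : ℂ)‖ = 2 := by simp
      rw [this]
      calc _ ≤ 1 * ((2 ^ k)⁻¹ * ‖(rs k).1.eval z‖) := by gcongr
        _ = _ := one_mul _
    refine h3.trans ?_
    apply le_of_sq_le_sq _ hη.le
    rw [mul_pow]
    calc (((2 : ℝ) ^ k)⁻¹) ^ 2 * ‖(rs k).1.eval z‖ ^ 2 ≤ (((2 : ℝ) ^ k)⁻¹) ^ 2 * 2 ^ (k + 1) := by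
          gcongr
      _ = 2 / 2 ^ k := by
          rw [pow_succ (2 : ℝ) k]; field_simp
      _ ≤ η ^ 2 := by
          rw [div_le_iff₀ h2k, ← div_le_iff₀' (by positivity)]
          exact hk.le

end Pool.Agent.H797R2.Wiener
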