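import Mathlib
import Pool.Agent.H797R2.Wiener.RudinShapiro

set_option autoImplicit false

open Finset Polynomial

namespace Pool.Agent.H797R2.Wiener

/-- The `i`-th digit in base `B`. -/
def dig (B E i : ℕ) : ℕ := E / B ^ i % B

theorem dig_sum (B : ℕ) : ∀ (m k : ℕ) (d : ℕ → ℕ), (∀ i, d i < B) → k < m →
    dig B (∑ i ∈ range m, d i * B ^ i) k = d k := by
  intro m
  induction m with
  | zero => intro k d _ hk; omega
  | succ m ih =>
    intro k d hd hk
    have hB : 0 < B := (Nat.zero_le _).trans_lt (hd 0)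
    have e1 : ∑ i ∈ range (m + 1), d i * B ^ i = d 0 + B * ∑ i ∈ range m, d (i + 1) * B ^ i := by
      rw [Finset.sum_range_succ', add_comm, Finset.mul_sum]
      simp only [pow_zero, mul_one]
      congr 1
      apply Finset.sum_congr rfl
      intro i _
      ring
    rw [e1]
    unfold dig
    rcases Nat.eq_zero_or_pos k with h | h
    · subst h
      rw [pow_zero, Nat.div_one, Nat.add_mul_mod_self_left, Nat.mod_eq_of_lt (hd 0)]
    · obtain ⟨l, rfl⟩ : ∃ l, k = l + 1 := ⟨k - 1, by omega⟩
      rw [pow_succ', ← Nat.div_div_eq_div_mul, Nat.add_mul_div_left _ _ hB,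
        Nat.div_eq_of_lt (hd 0), zero_add]
      exact ih l (fun i => d (i + 1)) (fun i => hd (i + 1)) (by omega)

variable (p : ℂ[X])

/-- The phase of a coefficient. -/
noncomputable def sg (e : ℕ) : ℂ := if p.coeff e = 0 then 0 else (starRingEnd ℂ) (p.coeff e) / ‖p.coeff e‖

theorem sg_mul (e : ℕ) : p.coeff e * sg p e = ‖p.coeff e‖ := by
  unfold sg
  split_ifs with h
  · rw [h]; simp
  · have h1 : (‖p.coeff e‖ : ℂ) ≠ 0 := by
      rw [Complex.ofReal_ne_zero]; exact norm_ne_zero_iff.2 h
    rw [mul_div_assoc', Complex.mul_conj, Complex.normSq_eq_norm_sq]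
    push_cast
    field_simp

theorem sg_norm (e : ℕ) : ‖sg p e‖ ≤ 1 := by
  unfold sg
  split_ifs with h
  · simp
  · rw [norm_div, RCLike.norm_conj]
    simp
    rw [div_self (norm_ne_zero_iff.2 h)]

/-- The weights of the test functional. -/
noncomputable def tau (B m n E : ℕ) : ℂ :=
  if ((range m).filter (fun i => dig B E i ≠ 0)).card = n then
    ∏ i ∈ (range m).filter (fun i => dig B E i ≠ 0), sg p (dig B E i) else 0

theorem tau_norm (B m n E : ℕ) : ‖tau p B m n E‖ ≤ 1 := by
  unfold tau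
  split_ifs
  · rw [norm_prod]
    exact Finset.prod_le_one (fun _ _ => norm_nonneg _) fun i _ => sg_norm p _
  · simp

theorem tau_eval (B m n : ℕ) (hB : n * p.natDegree < B) (q x : Fin n → ℕ) (hq : ∀ j, q j < m)
    (hx0 : ∀ j, 1 ≤ x j) (hx : ∀ j, x j ≤ p.natDegree) :
    tau p B m n (∑ j, x j * B ^ q j) = if Function.Injective q then ∏ j, sg p (x j) else 0 := by
  classical
  set d : ℕ → ℕ := fun i => ∑ j ∈ univ.filter (fun j => q j = i), x j with hd
  have hdlt : ∀ i, d i < B := by
    intro i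
    calc d i ≤ ∑ j ∈ univ.filter (fun j => q j = i), p.natDegree :=
          Finset.sum_le_sum fun j _ => hx j
      _ ≤ ∑ j : Fin n, p.natDegree :=
          Finset.sum_le_sum_of_subset_of_nonneg (Finset.filter_subset _ _) (fun _ _ _ => Nat.zero_le _)
      _ = n * p.natDegree := by simp
      _ < B := hB
  have hE : ∑ j, x j * B ^ q j = ∑ i ∈ range m, d i * B ^ i := by
    rw [← Finset.sum_fiberwise_of_maps_to (s := univ) (t := range m) (g := q)
      (fun j _ => Finset.mem_range.2 (hq j))]
    apply Finset.sum_congr rfl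
    intro i _
    rw [hd, Finset.sum_mul]
    apply Finset.sum_congr rfl
    intro j hj
    rw [(Finset.mem_filter.1 hj).2]
  have hdig : ∀ i ∈ range m, dig B (∑ j, x j * B ^ q j) i = d i := by
    intro i hi
    rw [hE]
    exact dig_sum B m i d hdlt (Finset.mem_range.1 hi)
  have hset : (range m).filter (fun i => dig B (∑ j, x j * B ^ q j) i ≠ 0) = univ.image q := by
    ext i
    rw [Finset.mem_filter, Finset.mem_image]
    constructor
    · rintro ⟨hi, hne⟩
      rw [hdig i hi] at hne
      obtain ⟨j, hj, -⟩ := Finset.exists_ne_zero_of_sum_ne_zero hne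
      exact ⟨j, Finset.mem_univ _, (Finset.mem_filter.1 hj).2⟩
    · rintro ⟨j, -, rfl⟩
      have hi : q j ∈ range m := Finset.mem_range.2 (hq j)
      refine ⟨hi, ?_⟩
      rw [hdig _ hi]
      have : x j ≤ d (q j) := Finset.single_le_sum (f := x) (fun _ _ => Nat.zero_le _)
        (Finset.mem_filter.2 ⟨Finset.mem_univ j, rfl⟩)
      have := hx0 j
      omega
  unfold tau
  rw [hset]
  by_cases hinj : Function.Injective q
  · rw [if_pos hinj, if_pos (by rw [Finset.card_image_of_injective _ hinj]; simp),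
      Finset.prod_image (fun a _ b _ h => hinj h)]
    apply Finset.prod_congr rfl
    intro j _
    rw [hdig _ (Finset.mem_range.2 (hq j))]
    congr 1
    have : univ.filter (fun j' => q j' = q j) = {j} := by
      ext j'
      simp [hinj.eq_iff]
    rw [hd]
    simp only
    rw [this, Finset.sum_singleton]
  · rw [if_neg hinj, if_neg]
    intro hc
    apply hinj
    have : (univ.image q).card = (univ : Finset (Fin n)).card := by rw [hc]; simp
    have := Finset.card_image_iff.1 this
    intro a b hab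
    exact this (by simp) (by simp) hab

/-- The test functional. -/
noncomputable def TT (B m n K : ℕ) (g : ℂ[X]) : ℂ := ∑ E ∈ range K, tau p B m n E * g.coeff E

theorem TT_add (B m n K : ℕ) {ι : Type*} (s : Finset ι) (g : ι → ℂ[X]) :
    TT p B m n K (∑ i ∈ s, g i) = ∑ i ∈ s, TT p B m n K (g i) := by
  unfold TT
  rw [Finset.sum_comm]
  apply Finset.sum_congr rfl
  intro E _
  rw [Polynomial.finsetSum_coeff, Finset.mul_sum]

theorem TT_C (B m n K : ℕ) (c : ℂ) (g : ℂ[X]) :
    TT p B m n K (C c * g) = c * TT p B m n K g := by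
  unfold TT
  rw [Finset.mul_sum]
  apply Finset.sum_congr rfl
  intro E _
  rw [Polynomial.coeff_C_mul]; ring

theorem TT_X (B m n K : ℕ) (E : ℕ) (hE : E < K) :
    TT p B m n K (X ^ E) = tau p B m n E := by
  unfold TT
  rw [Finset.sum_eq_single E]
  · simp
  · intro b _ hb
    rw [Polynomial.coeff_X_pow, if_neg hb, mul_zero]
  · intro h
    exact absurd (Finset.mem_range.2 hE) h

theorem TT_norm (B m n K : ℕ) (g : ℂ[X]) : ‖TT p B m n K g‖ ≤ pn g := by
  unfold TT
  calc ‖∑ E ∈ range K, tau p B m n E * g.coeff E‖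
      ≤ ∑ E ∈ range K, ‖g.coeff E‖ := by
        refine (norm_sum_le _ _).trans (Finset.sum_le_sum fun E _ => ?_)
        rw [norm_mul]
        calc _ ≤ 1 * ‖g.coeff E‖ := by gcongr; exact tau_norm p _ _ _ _
          _ = _ := one_mul _
    _ ≤ ∑ E ∈ range (max K (g.natDegree + 1)), ‖g.coeff E‖ :=
        Finset.sum_le_sum_of_subset_of_nonneg
          (Finset.range_subset_range.2 (le_max_left _ _)) (fun _ _ _ => norm_nonneg _)
    _ = pn g := (pn_eq g _ (by omega)).symm

/-- The averaged polynomial. -/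
noncomputable def uu (B m : ℕ) : ℂ[X] :=
  C ((m : ℂ)⁻¹) * ∑ i ∈ range m, ∑ e ∈ range (p.natDegree + 1), C (p.coeff e) * X ^ (e * B ^ i)

theorem uu_pow (B m n : ℕ) : (uu p B m) ^ n = C (((m : ℂ)⁻¹) ^ n) *
    ∑ q ∈ Fintype.piFinset (fun _ : Fin n => range m),
      ∑ x ∈ Fintype.piFinset (fun _ : Fin n => range (p.natDegree + 1)),
        C (∏ j, p.coeff (x j)) * X ^ (∑ j, x j * B ^ q j) := by
  unfold uu
  rw [mul_pow, ← Polynomial.C_pow, Finset.sum_pow']
  congr 1
  apply Finset.sum_congr rfl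
  intro q _
  rw [Finset.prod_univ_sum]
  apply Finset.sum_congr rfl
  intro x _
  rw [Finset.prod_mul_distrib, map_prod, Finset.prod_pow_eq_pow_sum]

theorem TT_uu (hp0 : p.coeff 0 = 0) (hp1 : ∑ e ∈ range (p.natDegree + 1), ‖p.coeff e‖ = 1)
    (B m n : ℕ) (hB : n * p.natDegree < B) :
    TT p B m n (n * (p.natDegree * B ^ m) + 1) ((uu p B m) ^ n)
      = ((m : ℂ)⁻¹) ^ n * (((Fintype.piFinset (fun _ : Fin n => range m)).filter
          (fun q => Function.Injective q)).card : ℂ) := by
  classical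
  rw [uu_pow, TT_C, TT_add]
  congr 1
  have hBpos : 0 < B := (Nat.zero_le _).trans_lt hB
  have key : ∀ q ∈ Fintype.piFinset (fun _ : Fin n => range m),
      TT p B m n (n * (p.natDegree * B ^ m) + 1)
        (∑ x ∈ Fintype.piFinset (fun _ : Fin n => range (p.natDegree + 1)),
        C (∏ j, p.coeff (x j)) * X ^ (∑ j, x j * B ^ q j))
      = if Function.Injective q then 1 else 0 := by
    intro q hq
    have hq' : ∀ j, q j < m := fun j => Finset.mem_range.1 (Fintype.mem_piFinset.1 hq j)
    rw [TT_add]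
    have e1 : ∀ x ∈ Fintype.piFinset (fun _ : Fin n => range (p.natDegree + 1)),
        TT p B m n (n * (p.natDegree * B ^ m) + 1)
          (C (∏ j, p.coeff (x j)) * X ^ (∑ j, x j * B ^ q j))
        = if Function.Injective q then (∏ j, (‖p.coeff (x j)‖ : ℂ)) else 0 := by
      intro x hx
      have hx' : ∀ j, x j ≤ p.natDegree := fun j =>
        Nat.lt_succ_iff.1 (Finset.mem_range.1 (Fintype.mem_piFinset.1 hx j))
      rw [TT_C, TT_X]
      · by_cases hz : ∃ j, x j = 0
        · obtain ⟨j, hj⟩ := hz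
          have h1 : ∏ j, p.coeff (x j) = 0 := Finset.prod_eq_zero (Finset.mem_univ j) (by rw [hj, hp0])
          have h2 : ∏ j, (‖p.coeff (x j)‖ : ℂ) = 0 :=
            Finset.prod_eq_zero (Finset.mem_univ j) (by rw [hj, hp0]; simp)
          rw [h1, h2]; simp
        · push Not at hz
          rw [tau_eval p B m n hB q x hq' (fun j => Nat.pos_of_ne_zero (hz j)) hx']
          split_ifs
          · rw [← Finset.prod_mul_distrib]
            exact Finset.prod_congr rfl fun j _ => sg_mul p _
          · simp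
      · rw [Nat.lt_succ_iff]
        calc ∑ j, x j * B ^ q j ≤ ∑ j : Fin n, p.natDegree * B ^ m := by
              apply Finset.sum_le_sum
              intro j _
              exact Nat.mul_le_mul (hx' j) (Nat.pow_le_pow_right hBpos (hq' j).le)
          _ = _ := by simp
    rw [Finset.sum_congr rfl e1]
    split_ifs
    · rw [← Finset.prod_univ_sum (fun _ : Fin n => range (p.natDegree + 1))
        (fun _ e => (‖p.coeff e‖ : ℂ))]
      have : ∑ j ∈ range (p.natDegree + 1), (‖p.coeff j‖ : ℂ) = 1 := by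
        rw [← Complex.ofReal_sum, hp1]; simp
      simp [this]
    · simp
  rw [Finset.sum_congr rfl key, Finset.sum_ite, Finset.sum_const_zero, add_zero]
  simp

theorem card_inj (m n : ℕ) : m.descFactorial n ≤
    ((Fintype.piFinset (fun _ : Fin n => range m)).filter (fun q => Function.Injective q)).card := by
  classical
  have h1 : Fintype.card (Fin n ↪ Fin m) = m.descFactorial n := by
    rw [Fintype.card_embedding_eq]; simp
  rw [← h1, ← Finset.card_univ]
  apply Finset.card_le_card_of_injOn (fun φ : Fin n ↪ Fin m => fun j => ((φ j : Fin m) : ℕ))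
  · intro φ _
    simp only [Finset.coe_filter, Set.mem_ofPred_eq, Fintype.mem_piFinset, Finset.mem_range]
    refine ⟨fun j => (φ j).2, ?_⟩
    intro a b hab
    exact φ.injective (Fin.ext hab)
  · intro φ _ ψ _ h
    ext j
    have := congrFun h j
    simpa using this

theorem uu_eval (η : ℝ) (hη : ∀ z : ℂ, ‖z‖ ≤ 1 → ‖p.eval z‖ ≤ η) (B m : ℕ) (hm : 0 < m) (z : ℂ)
    (hz : ‖z‖ ≤ 1) : ‖(uu p B m).eval z‖ ≤ η := by
  unfold uu
  have e1 : ∀ i, (∑ e ∈ range (p.natDegree + 1), C (p.coeff e) * X ^ (e * B ^ i)).eval z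
      = p.eval (z ^ B ^ i) := by
    intro i
    rw [Polynomial.eval_finsetSum, Polynomial.eval_eq_sum_range]
    apply Finset.sum_congr rfl
    intro e _
    rw [Polynomial.eval_mul, Polynomial.eval_C, Polynomial.eval_pow, Polynomial.eval_X, ← pow_mul,
      mul_comm e]
  rw [Polynomial.eval_mul, Polynomial.eval_C, Polynomial.eval_finsetSum, norm_mul, norm_inv,
    Complex.norm_natCast]
  have hm' : (0 : ℝ) < m := by exact_mod_cast hm
  rw [inv_mul_le_iff₀ hm']
  refine (norm_sum_le _ _).trans ?_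
  calc _ ≤ ∑ i ∈ range m, η := by
        apply Finset.sum_le_sum
        intro i _
        rw [e1]
        apply hη
        rw [norm_pow]
        exact pow_le_one₀ (norm_nonneg _) hz
    _ = m * η := by simp

theorem uu_pn_le (hp1 : ∑ e ∈ range (p.natDegree + 1), ‖p.coeff e‖ = 1) (B m : ℕ) (hm : 0 < m) :
    pn (uu p B m) ≤ 1 := by
  unfold pn
  have hm' : (0 : ℝ) < m := by exact_mod_cast hm
  set K := (uu p B m).natDegree + 1
  have e1 : ∀ E, ‖(uu p B m).coeff E‖ ≤ (m : ℝ)⁻¹ * ∑ i ∈ range m,
      ∑ e ∈ range (p.natDegree + 1), ‖p.coeff e‖ * (if E = e * B ^ i then 1 else 0) := by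
    intro E
    unfold uu
    rw [Polynomial.coeff_C_mul, norm_mul, norm_inv, Complex.norm_natCast]
    gcongr
    rw [Polynomial.finsetSum_coeff]
    refine (norm_sum_le _ _).trans (Finset.sum_le_sum fun i _ => ?_)
    rw [Polynomial.finsetSum_coeff]
    refine (norm_sum_le _ _).trans (Finset.sum_le_sum fun e _ => ?_)
    rw [Polynomial.coeff_C_mul, Polynomial.coeff_X_pow, norm_mul]
    gcongr
    split_ifs <;> simp
  calc ∑ E ∈ range K, ‖(uu p B m).coeff E‖
      ≤ ∑ E ∈ range K, (m : ℝ)⁻¹ * ∑ i ∈ range m,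
      ∑ e ∈ range (p.natDegree + 1), ‖p.coeff e‖ * (if E = e * B ^ i then 1 else 0) :=
        Finset.sum_le_sum fun E _ => e1 E
    _ = (m : ℝ)⁻¹ * ∑ i ∈ range m, ∑ e ∈ range (p.natDegree + 1),
          ‖p.coeff e‖ * ∑ E ∈ range K, (if E = e * B ^ i then (1:ℝ) else 0) := by
        rw [← Finset.mul_sum, Finset.sum_comm]
        congr 1
        apply Finset.sum_congr rfl
        intro i _
        rw [Finset.sum_comm]
        apply Finset.sum_congr rfl
        intro e _
        rw [Finset.mul_sum]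
    _ ≤ (m : ℝ)⁻¹ * ∑ i ∈ range m, ∑ e ∈ range (p.natDegree + 1), ‖p.coeff e‖ * 1 := by
        gcongr with i _ e _
        rw [Finset.sum_ite_eq']
        split_ifs <;> simp
    _ = 1 := by
        simp only [mul_one, hp1]
        simp
        field_simp

/-- Existence of the polynomials. -/
theorem exists_poly (η : ℝ) (hη : 0 < η) (ε : ℝ) (hε : 0 < ε) (N : ℕ) : ∃ u : ℂ[X],
    pn u = 1 ∧ (∀ z : ℂ, ‖z‖ ≤ 1 → ‖u.eval z‖ ≤ η) ∧ ∀ n ≤ N, 1 - ε ≤ pn (u ^ n) := by
  obtain ⟨p, hp0, hp1, hp2⟩ := exists_flat η hη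
  obtain ⟨m, hm⟩ := exists_nat_gt (max ((N : ℝ) ^ 2 / ε) N)
  have hmN : (N : ℝ) < m := lt_of_le_of_lt (le_max_right _ _) hm
  have hmε : (N : ℝ) ^ 2 / ε < m := lt_of_le_of_lt (le_max_left _ _) hm
  have hmN' : N < m := by exact_mod_cast hmN
  have hm0 : 0 < m := by omega
  have hm' : (0 : ℝ) < m := by exact_mod_cast hm0
  set B := (N + 1) * p.natDegree + 1 with hB
  have hlow : ∀ n ≤ N + 1, ((m : ℝ)⁻¹) ^ n * (m.descFactorial n : ℝ) ≤ pn ((uu p B m) ^ n) := by
    intro n hn
    have h1 := TT_uu p hp0 hp1 B m n (by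
      rw [hB]
      have := Nat.mul_le_mul_right p.natDegree hn
      omega)
    have h2 := TT_norm p B m n (n * (p.natDegree * B ^ m) + 1) ((uu p B m) ^ n)
    rw [h1, norm_mul, norm_pow, norm_inv, Complex.norm_natCast, Complex.norm_natCast] at h2
    refine le_trans ?_ h2
    gcongr
    exact card_inj m n
  refine ⟨uu p B m, ?_, fun z hz => uu_eval p η hp2 B m hm0 z hz, ?_⟩
  · apply le_antisymm (uu_pn_le p hp1 B m hm0)
    have := hlow 1 (by omega)
    rw [pow_one, pow_one, Nat.descFactorial_one] at this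
    calc (1 : ℝ) = (m : ℝ)⁻¹ * m := by field_simp
      _ ≤ _ := this
  · intro n hn
    refine le_trans ?_ (hlow n (by omega))
    have h1 : ((m + 1 - n : ℕ) : ℝ) ^ n ≤ (m.descFactorial n : ℝ) := by
      exact_mod_cast Nat.pow_sub_le_descFactorial m n
    have h2 : (m : ℝ) - N ≤ ((m + 1 - n : ℕ) : ℝ) := by
      rw [Nat.cast_sub (by omega)]
      have : (n : ℝ) ≤ N := by exact_mod_cast hn
      push_cast
      linarith
    have h3 : (0 : ℝ) ≤ (m : ℝ) - N := by linarith
    calc 1 - ε ≤ 1 + (n : ℝ) * (-(N / m)) := by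
          have h4 : (n : ℝ) * (N / m) ≤ ε := by
            have : (n : ℝ) ≤ N := by exact_mod_cast hn
            calc (n : ℝ) * (N / m) ≤ N * (N / m) := by gcongr
              _ = N ^ 2 / m := by ring
              _ ≤ ε := by
                rw [div_le_iff₀ hm', mul_comm, ← div_le_iff₀ hε]
                exact hmε.le
          linarith
      _ ≤ (1 + (-(N / m))) ^ n := by
          apply one_add_mul_le_pow
          have : (N : ℝ) / m ≤ 1 := by rw [div_le_one hm']; exact hmN.le
          linarith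
      _ = ((m : ℝ)⁻¹) ^ n * (m - N) ^ n := by
          rw [← mul_pow]
          congr 1
          field_simp
          ring
      _ ≤ ((m : ℝ)⁻¹) ^ n * (m.descFactorial n : ℝ) := by
          gcongr
          refine le_trans ?_ h1
          gcongr

end Pool.Agent.H797R2.Wiener
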