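import Mathlib
import Pool.Agent.H797R2.Wiener.Basic
import Pool.Agent.H797R2.Wiener.Powers

set_option autoImplicit false

open Finset Metric Polynomial
open scoped ENNReal

namespace Pool.Agent.H797R2.Wiener

theorem iteratedDeriv_poly (p : ℂ[X]) (n : ℕ) (z : ℂ) :
    iteratedDeriv n (fun z => p.eval z) z = (Polynomial.derivative^[n] p).eval z := by
  induction n generalizing p z with
  | zero => simp
  | succ n ih =>
    rw [iteratedDeriv_succ', Function.iterate_succ_apply]
    have : deriv (fun z => p.eval z) = fun z => (Polynomial.derivative p).eval z := by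
      funext w; exact p.deriv
    rw [this]
    exact ih _ _

theorem taylor_poly (p : ℂ[X]) (n : ℕ) : taylor (fun z => p.eval z) n = p.coeff n := by
  unfold taylor
  rw [iteratedDeriv_poly, ← Polynomial.coeff_zero_eq_eval_zero, Polynomial.coeff_iterate_derivative,
    zero_add, Nat.descFactorial_self, nsmul_eq_mul]
  have : (n.factorial : ℂ) ≠ 0 := by exact_mod_cast n.factorial_ne_zero
  field_simp

theorem wnorm_poly (p : ℂ[X]) : wnorm (fun z => p.eval z) = ENNReal.ofReal (pn p) := by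
  unfold wnorm pn
  simp only [taylor_poly]
  rw [tsum_eq_sum (s := range (p.natDegree + 1)), ENNReal.ofReal_sum_of_nonneg (fun _ _ => norm_nonneg _)]
  · exact Finset.sum_congr rfl fun n _ => (ofReal_norm _).symm
  · intro n hn
    rw [Finset.mem_range, not_lt] at hn
    rw [Polynomial.coeff_eq_zero_of_natDegree_lt (by omega)]
    simp

theorem sum_blocks (g : ℕ → ℝ) (L : ℕ) : ∀ N, ∑ k ∈ range (L * N), g k
    = ∑ n ∈ range N, ∑ e ∈ range L, g (L * n + e) := by
  intro N
  induction N with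
  | zero => simp
  | succ N ih => rw [Nat.mul_succ, Finset.sum_range_add, ih, Finset.sum_range_succ]

/-- The lower bound coming from a polynomial `u`. -/
theorem lower_step {δ α η ε : ℝ} (hδ : 1 / 2 < δ) (hα : δ < α) (hα1 : α < 1)
    (hηα : η ≤ α - δ) (N : ℕ) (u : ℂ[X]) (hu1 : pn u = 1)
    (hu2 : ∀ z : ℂ, ‖z‖ ≤ 1 → ‖u.eval z‖ ≤ η) (hu3 : ∀ n ≤ N, 1 - ε ≤ pn (u ^ n)) :
    ENNReal.ofReal ((1 - ε) * (α⁻¹ * ∑ n ∈ range (N + 1), ((1 - α) / α) ^ n)) ≤ CC δ := by
  have hα0 : 0 < α := by linarith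
  set s : ℝ := (1 - α) / α with hs
  have hs0 : 0 ≤ s := div_nonneg (by linarith) hα0.le
  set L : ℕ := N * u.natDegree + u.natDegree + 1 with hL
  have hL0 : 0 < L := by omega
  set F : ℂ[X] := C (α : ℂ) + C ((1 - α : ℝ) : ℂ) * (X ^ L * u) with hF
  have hFe : ∀ z, F.eval z = (α : ℂ) + ((1 - α : ℝ) : ℂ) * (z ^ L * u.eval z) := by
    intro z; simp [hF]
  have hFc : ∀ n, F.coeff n = (if n = 0 then (α : ℂ) else 0)
      + ((1 - α : ℝ) : ℂ) * (if L ≤ n then u.coeff (n - L) else 0) := by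
    intro n
    rw [hF, Polynomial.coeff_add, Polynomial.coeff_C, Polynomial.coeff_C_mul,
      Polynomial.coeff_X_pow_mul']
  have hFdeg : F.natDegree < L + (u.natDegree + 1) := by
    rw [← add_assoc, Nat.lt_succ_iff, Polynomial.natDegree_le_iff_coeff_eq_zero]
    intro n hn
    rw [hFc, if_neg (by omega), if_pos (by omega),
      Polynomial.coeff_eq_zero_of_natDegree_lt (by omega)]
    simp
  have hFpn : pn F = 1 := by
    rw [pn_eq F _ hFdeg, Finset.sum_range_add]
    have e1 : ∑ x ∈ range L, ‖F.coeff x‖ = α := by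
      rw [Finset.sum_eq_single 0]
      · rw [hFc, if_pos rfl, if_neg (by omega)]
        simp [abs_of_pos hα0]
      · intro b hb hb0
        rw [Finset.mem_range] at hb
        rw [hFc, if_neg hb0, if_neg (by omega)]
        simp
      · intro h; exact absurd (Finset.mem_range.2 hL0) h
    have e2 : ∑ x ∈ range (u.natDegree + 1), ‖F.coeff (L + x)‖ = (1 - α) * pn u := by
      unfold pn
      rw [Finset.mul_sum]
      apply Finset.sum_congr rfl
      intro x _
      rw [hFc, if_neg (by omega), if_pos (by omega), zero_add, norm_mul, Complex.norm_real,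
        Real.norm_of_nonneg (by linarith), Nat.add_sub_cancel_left]
    rw [e1, e2, hu1]; ring
  have hlow : ∀ z ∈ ball (0 : ℂ) 1, δ ≤ ‖F.eval z‖ := by
    intro z hz
    have hz1 : ‖z‖ ≤ 1 := by
      rw [mem_ball_zero_iff] at hz; exact hz.le
    rw [hFe]
    have h1 : ‖((1 - α : ℝ) : ℂ) * (z ^ L * u.eval z)‖ ≤ η := by
      rw [norm_mul, norm_mul, norm_pow, Complex.norm_real, Real.norm_of_nonneg (by linarith)]
      calc (1 - α) * (‖z‖ ^ L * ‖u.eval z‖) ≤ 1 * (1 * η) := by
            gcongr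
            · linarith
            · exact pow_le_one₀ (norm_nonneg _) hz1
            · exact hu2 z hz1
        _ = η := by ring
    have h2 := norm_sub_norm_le (α : ℂ) (-(((1 - α : ℝ) : ℂ) * (z ^ L * u.eval z)))
    rw [norm_neg, sub_neg_eq_add, Complex.norm_real, Real.norm_of_nonneg hα0.le] at h2
    linarith
  have hd : DifferentiableOn ℂ (fun z => F.eval z) (ball 0 1) := F.differentiable.differentiableOn
  have hmem : (fun z => F.eval z) ∈ Fam δ := by
    refine ⟨hd, ?_, hlow⟩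
    rw [wnorm_poly, hFpn]; simp
  have h0 : ∀ z ∈ ball (0 : ℂ) 1, F.eval z ≠ 0 := by
    intro z hz hz0
    have := hlow z hz
    rw [hz0, norm_zero] at this
    linarith
  refine le_trans ?_ (le_iSup₂ (f := fun f (_ : f ∈ Fam δ) => wnorm (fun z => (f z)⁻¹))
    (fun z => F.eval z) hmem)
  set b : ℕ → ℂ := taylor (fun z => (F.eval z)⁻¹) with hb
  -- power series
  have hps : (F : PowerSeries ℂ) * PowerSeries.mk b = 1 := by
    ext n
    rw [PowerSeries.coeff_mul, Finset.Nat.sum_antidiagonal_eq_sum_range_succ_mk]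
    have := conv hd h0 n
    simp only [taylor_poly] at this
    simp only [Polynomial.coeff_coe, PowerSeries.coeff_mk, PowerSeries.coeff_one]
    exact this
  set G : ℂ[X] := ∑ n ∈ range (N + 1), C (((α : ℂ))⁻¹ * (-(s : ℂ)) ^ n) * (X ^ (L * n) * u ^ n) with hG
  have hFG : F * G = 1 - X ^ (L * (N + 1)) * (C ((-(s : ℂ)) ^ (N + 1)) * u ^ (N + 1)) := by
    have hαc : (α : ℂ) ≠ 0 := by exact_mod_cast hα0.ne'
    have e1 : F = C (α : ℂ) * (1 - C (-(s : ℂ)) * (X ^ L * u)) := by
      have h7 : C (α : ℂ) * C (-(s : ℂ)) = -C ((1 - α : ℝ) : ℂ) := by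
        have : (α : ℂ) * (-(s : ℂ)) = -((1 - α : ℝ) : ℂ) := by
          rw [hs]; push_cast; field_simp
        rw [← C_mul, this, C_neg]
      calc F = C (α : ℂ) - (-C ((1 - α : ℝ) : ℂ)) * (X ^ L * u) := by rw [hF]; ring
        _ = _ := by rw [← h7]; ring
    have e2 : G = C ((α : ℂ)⁻¹) * ∑ n ∈ range (N + 1), (C (-(s : ℂ)) * (X ^ L * u)) ^ n := by
      rw [hG, Finset.mul_sum]
      apply Finset.sum_congr rfl
      intro n _
      rw [mul_pow, mul_pow, ← pow_mul, ← C_pow, C_mul]; ring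
    rw [e1, e2]
    have e3 : C (α : ℂ) * (1 - C (-(s : ℂ)) * (X ^ L * u)) *
        (C ((α : ℂ)⁻¹) * ∑ n ∈ range (N + 1), (C (-(s : ℂ)) * (X ^ L * u)) ^ n)
        = (C (α : ℂ) * C ((α : ℂ)⁻¹)) * ((1 - C (-(s : ℂ)) * (X ^ L * u)) *
          ∑ n ∈ range (N + 1), (C (-(s : ℂ)) * (X ^ L * u)) ^ n) := by ring
    rw [e3, ← C_mul, mul_inv_cancel₀ hαc, C_1, one_mul, mul_neg_geom_sum, mul_pow, mul_pow,
      ← pow_mul, ← C_pow]
    ring
  have hbG : ∀ k < L * (N + 1), b k = G.coeff k := by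
    intro k hk
    have h1 : (G : PowerSeries ℂ) = PowerSeries.mk b -
        (X ^ (L * (N + 1)) : ℂ[X]) * ((C ((-(s : ℂ)) ^ (N + 1)) * u ^ (N + 1) : ℂ[X]) *
          PowerSeries.mk b) := by
      have h2 : (G : PowerSeries ℂ) = ((F * G : ℂ[X]) : PowerSeries ℂ) * PowerSeries.mk b := by
        rw [Polynomial.coe_mul, mul_comm (F : PowerSeries ℂ), mul_assoc, hps, mul_one]
      rw [h2, hFG, Polynomial.coe_sub, Polynomial.coe_one, Polynomial.coe_mul]
      ring
    have h2 := congrArg (PowerSeries.coeff k) h1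
    rw [map_sub, Polynomial.coeff_coe, PowerSeries.coeff_mk, Polynomial.coe_pow,
      Polynomial.coe_X, PowerSeries.coeff_X_pow_mul', if_neg (by omega), sub_zero] at h2
    exact h2.symm
  have hGc : ∀ n ≤ N, ∀ e < L, G.coeff (L * n + e) = ((α : ℂ))⁻¹ * (-(s : ℂ)) ^ n * (u ^ n).coeff e := by
    intro n hn e he
    rw [hG, Polynomial.finsetSum_coeff, Finset.sum_eq_single n]
    · rw [Polynomial.coeff_C_mul, Polynomial.coeff_X_pow_mul', if_pos (by omega),
        Nat.add_sub_cancel_left]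
    · intro n' hn' hne
      rw [Finset.mem_range] at hn'
      rw [Polynomial.coeff_C_mul, Polynomial.coeff_X_pow_mul']
      rcases lt_or_gt_of_ne hne with h | h
      · have h3 : L * n' + L ≤ L * n := by
          rw [← Nat.mul_succ]; exact Nat.mul_le_mul_left L h
        rw [if_pos (by omega), Polynomial.coeff_eq_zero_of_natDegree_lt, mul_zero]
        calc (u ^ n').natDegree ≤ n' * u.natDegree := Polynomial.natDegree_pow_le
          _ ≤ N * u.natDegree := Nat.mul_le_mul_right _ (by omega)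
          _ < L * n + e - L * n' := by omega
      · have h3 : L * n + L ≤ L * n' := by
          rw [← Nat.mul_succ]; exact Nat.mul_le_mul_left L h
        rw [if_neg (by omega), mul_zero]
    · intro h
      exact absurd (Finset.mem_range.2 (by omega)) h
  have hsum : (1 - ε) * (α⁻¹ * ∑ n ∈ range (N + 1), s ^ n) ≤ ∑ k ∈ range (L * (N + 1)), ‖b k‖ := by
    rw [sum_blocks, Finset.mul_sum, Finset.mul_sum]
    apply Finset.sum_le_sum
    intro n hn
    rw [Finset.mem_range, Nat.lt_succ_iff] at hn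
    have e1 : ∑ e ∈ range L, ‖b (L * n + e)‖ = α⁻¹ * s ^ n * pn (u ^ n) := by
      have hdeg : (u ^ n).natDegree < L := by
        calc (u ^ n).natDegree ≤ n * u.natDegree := Polynomial.natDegree_pow_le
          _ ≤ N * u.natDegree := Nat.mul_le_mul_right _ hn
          _ < L := by omega
      rw [pn_eq _ _ hdeg, Finset.mul_sum]
      apply Finset.sum_congr rfl
      intro e he
      rw [Finset.mem_range] at he
      have h3 : L * n + L ≤ L * (N + 1) := by
        rw [← Nat.mul_succ]; exact Nat.mul_le_mul_left L (by omega)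
      rw [hbG _ (by omega), hGc n hn e he, norm_mul, norm_mul, norm_inv, norm_pow, norm_neg,
        Complex.norm_real, Complex.norm_real, Real.norm_of_nonneg hα0.le, Real.norm_of_nonneg hs0]
    rw [e1]
    have h5 : 0 ≤ α⁻¹ * s ^ n := by positivity
    nlinarith [hu3 n hn]
  refine (ENNReal.ofReal_le_ofReal hsum).trans ?_
  rw [ENNReal.ofReal_sum_of_nonneg (fun _ _ => norm_nonneg _)]
  unfold wnorm
  refine le_trans (le_of_eq ?_) (ENNReal.sum_le_tsum (range (L * (N + 1))))
  exact Finset.sum_congr rfl fun n _ => ofReal_norm _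

/-- The lower bound for `1/2 < δ < 1`. -/
theorem lower {δ : ℝ} (hδ : 1 / 2 < δ) (hδ1 : δ < 1) :
    ENNReal.ofReal (1 / (2 * δ - 1)) ≤ CC δ := by
  -- for every α > δ
  have h1 : ∀ α, δ < α → α < 1 → ENNReal.ofReal (1 / (2 * α - 1)) ≤ CC δ := by
    intro α hα hα1
    have hα0 : 0 < α := by linarith
    have hs0 : 0 ≤ (1 - α) / α := div_nonneg (by linarith) hα0.le
    have hs1 : (1 - α) / α < 1 := by rw [div_lt_one hα0]; linarith
    have hsum := hasSum_geometric_of_lt_one hs0 hs1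
    have ht1 : Filter.Tendsto (fun N : ℕ => (1 - 1 / ((N : ℝ) + 1)) *
        (α⁻¹ * ∑ n ∈ range (N + 1), ((1 - α) / α) ^ n)) Filter.atTop
        (nhds ((1 - 0) * (α⁻¹ * (1 - (1 - α) / α)⁻¹))) := by
      apply Filter.Tendsto.mul
      · exact tendsto_const_nhds.sub tendsto_one_div_add_atTop_nhds_zero_nat
      · exact tendsto_const_nhds.mul
          (hsum.tendsto_sum_nat.comp (Filter.tendsto_add_atTop_nat 1))
    have he : (1 - 0) * (α⁻¹ * (1 - (1 - α) / α)⁻¹) = 1 / (2 * α - 1) := by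
      have h2 : (2 * α - 1) ≠ 0 := by
        have : 0 < 2 * α - 1 := by linarith
        exact this.ne'
      have h3 : 1 - (1 - α) / α = (2 * α - 1) / α := by field_simp; ring
      rw [h3, sub_zero, one_mul]
      field_simp
    rw [he] at ht1
    have ht2 := (ENNReal.continuous_ofReal.tendsto _).comp ht1
    refine le_of_tendsto' ht2 fun N => ?_
    obtain ⟨u, hu1, hu2, hu3⟩ := exists_poly (α - δ) (by linarith) (1 / ((N : ℝ) + 1))
      (by positivity) N
    exact lower_step hδ hα hα1 le_rfl N u hu1 hu2 hu3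
  have hpos : 0 < 2 * δ - 1 := by linarith
  have ht : Filter.Tendsto (fun α : ℝ => ENNReal.ofReal (1 / (2 * α - 1))) (nhdsWithin δ (Set.Ioi δ))
      (nhds (ENNReal.ofReal (1 / (2 * δ - 1)))) := by
    apply Filter.Tendsto.mono_left _ nhdsWithin_le_nhds
    have : ContinuousAt (fun α : ℝ => 1 / (2 * α - 1)) δ :=
      continuousAt_const.div (by fun_prop) hpos.ne'
    exact (ENNReal.continuous_ofReal.tendsto _).comp this
  refine le_of_tendsto ht ?_
  filter_upwards [Ioo_mem_nhdsGT hδ1] with α hα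
  exact h1 α hα.1 hα.2

theorem CC_anti {δ δ' : ℝ} (h : δ ≤ δ') : CC δ' ≤ CC δ := by
  unfold CC
  apply iSup₂_le
  rintro f ⟨h1, h2, h3⟩
  exact le_iSup₂ (f := fun f (_ : f ∈ Fam δ) => wnorm (fun z => (f z)⁻¹)) f
    ⟨h1, h2, fun z hz => h.trans (h3 z hz)⟩

theorem CC_one : CC 1 = 1 := by
  apply le_antisymm
  · unfold CC
    apply iSup₂_le
    intro f hf
    have := upper (by norm_num : (1 : ℝ) / 2 < 1) hf
    norm_num at this
    exact this
  · have hw : wnorm (fun _ => (1 : ℂ)) = 1 := by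
      have := wnorm_poly (1 : ℂ[X])
      simp only [Polynomial.eval_one] at this
      rw [this]
      unfold pn
      simp
    have hmem : (fun _ => (1 : ℂ)) ∈ Fam 1 :=
      ⟨differentiableOn_const _, hw, fun z _ => by simp⟩
    have := le_iSup₂ (f := fun f (_ : f ∈ Fam 1) => wnorm (fun z => (f z)⁻¹)) _ hmem
    simp only [inv_one] at this
    rw [hw] at this
    exact this

/-- The value of `C(δ)` for `δ > 1/2`. -/
theorem CC_eq {δ : ℝ} (hδ : 1 / 2 < δ) (hδ1 : δ ≤ 1) : CC δ = ENNReal.ofReal (1 / (2 * δ - 1)) := by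
  apply le_antisymm
  · unfold CC
    exact iSup₂_le fun f hf => upper hδ hf
  · rcases hδ1.lt_or_eq with h | h
    · exact lower hδ h
    · rw [h, CC_one]; norm_num

/-- `C(δ)` is infinite for `δ ≤ 1/2`. -/
theorem CC_top {δ : ℝ} (hδ : δ ≤ 1 / 2) : CC δ = ⊤ := by
  refine ENNReal.eq_top_of_forall_nnreal_le fun r => ?_
  have hr : (0 : ℝ) ≤ r := r.2
  have hpos : (0 : ℝ) < r + 2 := by linarith
  have h1 : (1 : ℝ) / (r + 2) ≤ 1 / 2 := by
    apply one_div_le_one_div_of_le <;> linarith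
  have h2 : (0 : ℝ) < 1 / (r + 2) := by positivity
  have h3 := CC_eq (δ := 1 / 2 + 1 / (r + 2) / 2) (by linarith) (by linarith)
  have h4 : 1 / (2 * (1 / 2 + 1 / ((r : ℝ) + 2) / 2) - 1) = r + 2 := by
    have : 2 * (1 / 2 + 1 / ((r : ℝ) + 2) / 2) - 1 = 1 / (r + 2) := by ring
    rw [this, one_div_one_div]
  rw [h4] at h3
  calc (r : ℝ≥0∞) = ENNReal.ofReal r := (ENNReal.ofReal_coe_nnreal).symm
    _ ≤ ENNReal.ofReal (r + 2) := ENNReal.ofReal_le_ofReal (by linarith)
    _ = CC (1 / 2 + 1 / (r + 2) / 2) := h3.symm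
    _ ≤ CC δ := CC_anti (by linarith)

end Pool.Agent.H797R2.Wiener
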